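import Mathlib

/-!
# MP_6fb3b3_lc: the minimum cost of fast contract-signing protocols is `4N - 6`
-/

namespace Pool.Agent.Results.MP_6fb3b3_lc.ExactCost

open Finset

/-! ### Definitions -/

/-- A tuple of permutations; `P n d` is the party holding contract `n` on day `d`. It is a fast
protocol when `P n (N-1) = n` for every `n`. -/
def IsFast {N : ℕ} (P : Fin N → Equiv.Perm (Fin N)) : Prop :=
  ∀ n d : Fin N, d.val + 1 = N → P n d = n

/-- The set of envelopes `(d, i, j)`: on day `d` (with `d ≤ N - 2`) some contract goes from `i` to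
`j`. -/
def envelopes {N : ℕ} (P : Fin N → Equiv.Perm (Fin N)) : Finset (ℕ × Fin N × Fin N) :=
  ((univ : Finset (Fin N × Fin N × Fin N)).filter fun x => x.2.1.val + 1 = x.2.2.val).image
    fun x => (x.2.1.val, P x.1 x.2.1, P x.1 x.2.2)

/-- `CFP(N)`: the minimum number of envelopes of a fast protocol. -/
noncomputable def CFP (N : ℕ) : ℕ :=
  sInf {c | ∃ P : Fin N → Equiv.Perm (Fin N), IsFast P ∧ (envelopes P).card = c}

/-! ### Lower bound -/

section lower

variable {N : ℕ} (P : Fin (N + 3) → Equiv.Perm (Fin (N + 3)))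

lemma mem_env (n : Fin (N + 3)) (d : ℕ) (hd : d + 1 < N + 3) :
    (d, P n ⟨d, by omega⟩, P n ⟨d + 1, hd⟩) ∈ envelopes P := by
  unfold envelopes
  rw [mem_image]
  exact ⟨(n, ⟨d, by omega⟩, ⟨d + 1, hd⟩), by simp, rfl⟩

lemma env_spec {d : ℕ} {i j : Fin (N + 3)} (h : (d, i, j) ∈ envelopes P) :
    ∃ n, ∃ hd : d + 1 < N + 3, P n ⟨d, by omega⟩ = i ∧ P n ⟨d + 1, hd⟩ = j := by
  unfold envelopes at h
  rw [mem_image] at h
  obtain ⟨⟨n, a, b⟩, h1, h2⟩ := h
  simp only [mem_filter, mem_univ, true_and] at h1
  simp only [Prod.mk.injEq] at h2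
  obtain ⟨rfl, rfl, rfl⟩ := h2
  have hb := b.isLt
  refine ⟨n, by omega, rfl, ?_⟩
  congr 1
  exact Fin.ext h1

/-- Parties holding a contract on day `d`. -/
def G (d : Fin (N + 3)) : Finset (Fin (N + 3)) := univ.image fun n => P n d

lemma two_le_G (hP : IsFast P) (d : Fin (N + 3)) (hd : d.val + 1 < N + 3) : 2 ≤ (G P d).card := by
  by_contra hcon
  have h1 : (G P d).card ≤ 1 := by omega
  rw [Finset.card_le_one] at h1
  -- all contracts at the same party `x`
  set x := P 0 d with hx
  have h2 : P x d = x := h1 _ (mem_image_of_mem _ (mem_univ x)) _ (mem_image_of_mem _ (mem_univ 0))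
  have h3 : P x ⟨N + 2, by omega⟩ = x := hP x _ rfl
  have h4 := (P x).injective (h2.trans h3.symm)
  have := congrArg Fin.val h4
  simp at this
  omega

/-- Internal nodes on days `1..N`. -/
abbrev Node : Type := Σ d : Fin N, ↥(G P ⟨d.val + 1, by omega⟩)

/-- Index type of the family of vectors: internal nodes on days `1..N`, parties, contracts. -/
abbrev Idx : Type := Node P ⊕ Fin (N + 3) ⊕ Fin (N + 3)

abbrev Env := {e : ℕ × Fin (N + 3) × Fin (N + 3) // e ∈ envelopes P}

/-- Conservation vector of the node `(d, x)`. -/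
def cons (d : ℕ) (x : Fin (N + 3)) (e : Env P) : ℚ :=
  (if e.1.1 + 1 = d ∧ e.1.2.2 = x then 1 else 0) - if e.1.1 = d ∧ e.1.2.1 = x then 1 else 0

/-- Number of visits of `x` minus total flow. -/
def vis (x : Fin (N + 3)) (e : Env P) : ℚ :=
  (if e.1.2.2 = x then 1 else 0) + (if e.1.1 = 0 ∧ e.1.2.1 = x then 1 else 0) -
    if e.1.1 = 0 then 1 else 0

open Classical in
/-- The path of contract `n`. -/
noncomputable def path (n : Fin (N + 3)) (e : Env P) : ℚ :=
  if ∃ hd : e.1.1 + 1 < N + 3, P n ⟨e.1.1, by omega⟩ = e.1.2.1 ∧ P n ⟨e.1.1 + 1, hd⟩ = e.1.2.2 then 1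
  else 0

/-- Summing against a path. -/
lemma sum_path (n : Fin (N + 3)) (f : ℕ → Fin (N + 3) → Fin (N + 3) → ℚ) :
    ∑ e : Env P, path P n e * f e.1.1 e.1.2.1 e.1.2.2 =
      ∑ d : Fin (N + 2), f d.val (P n ⟨d.val, by omega⟩) (P n ⟨d.val + 1, by omega⟩) := by
  classical
  symm
  have key : ∀ e : Env P, path P n e * f e.1.1 e.1.2.1 e.1.2.2 =
      ∑ d : Fin (N + 2), if (⟨(d.val, P n ⟨d.val, by omega⟩, P n ⟨d.val + 1, by omega⟩),
        mem_env P n d.val (by omega)⟩ : Env P) = e then
          f d.val (P n ⟨d.val, by omega⟩) (P n ⟨d.val + 1, by omega⟩) else 0 := by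
    rintro ⟨⟨d, i, j⟩, he⟩
    obtain ⟨-, hd, -, -⟩ := env_spec P he
    rw [Finset.sum_eq_single (⟨d, by omega⟩ : Fin (N + 2))]
    · unfold path
      simp only [Subtype.mk.injEq, Prod.mk.injEq, true_and]
      by_cases h : P n ⟨d, by omega⟩ = i ∧ P n ⟨d + 1, hd⟩ = j
      · rw [if_pos ⟨hd, h⟩, if_pos h, one_mul, h.1, h.2]
      · rw [if_neg (by rintro ⟨_, h'⟩; exact h h'), if_neg h, zero_mul]
    · intro b _ hb
      rw [if_neg]
      intro h
      simp only [Subtype.mk.injEq, Prod.mk.injEq] at h
      exact hb (Fin.ext h.1)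
    · intro h; exact absurd (mem_univ _) h
  rw [Finset.sum_congr rfl fun e _ => key e, Finset.sum_comm]
  refine Finset.sum_congr rfl fun d _ => ?_
  rw [Finset.sum_ite_eq]
  simp

lemma path_cons (n : Fin (N + 3)) (d : Fin N) (x : Fin (N + 3)) :
    ∑ e : Env P, path P n e * cons P (d.val + 1) x e = 0 := by
  have h := sum_path P n (fun a i j => (if a + 1 = d.val + 1 ∧ j = x then (1 : ℚ) else 0) -
    if a = d.val + 1 ∧ i = x then 1 else 0)
  have h2 : ∑ e : Env P, path P n e * cons P (d.val + 1) x e = ∑ e : Env P, path P n e *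
      ((fun (a : ℕ) (i j : Fin (N + 3)) => (if a + 1 = d.val + 1 ∧ j = x then (1 : ℚ) else 0) -
        if a = d.val + 1 ∧ i = x then 1 else 0) e.1.1 e.1.2.1 e.1.2.2) := rfl
  rw [h2, h, Finset.sum_sub_distrib]
  rw [Finset.sum_eq_single (⟨d.val, by omega⟩ : Fin (N + 2)),
    Finset.sum_eq_single (⟨d.val + 1, by omega⟩ : Fin (N + 2))]
  · simp
  · intro b _ hb
    rw [if_neg]
    rintro ⟨h, -⟩
    exact hb (Fin.ext h)
  · intro h; exact absurd (mem_univ _) h
  · intro b _ hb
    rw [if_neg]
    rintro ⟨h, -⟩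
    exact hb (Fin.ext (by simpa using h))
  · intro h; exact absurd (mem_univ _) h

lemma path_vis (n x : Fin (N + 3)) : ∑ e : Env P, path P n e * vis P x e = 0 := by
  have h := sum_path P n (fun a i j => (if j = x then (1 : ℚ) else 0) +
    (if a = 0 ∧ i = x then 1 else 0) - if a = 0 then 1 else 0)
  have h2 : ∑ e : Env P, path P n e * vis P x e = ∑ e : Env P, path P n e *
      ((fun (a : ℕ) (i j : Fin (N + 3)) => (if j = x then (1 : ℚ) else 0) +
        (if a = 0 ∧ i = x then 1 else 0) - if a = 0 then 1 else 0) e.1.1 e.1.2.1 e.1.2.2) := rfl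
  rw [h2, h, Finset.sum_sub_distrib, Finset.sum_add_distrib]
  -- total number of visits of `x` is one
  have hv : ∑ d : Fin (N + 3), (if P n d = x then (1 : ℚ) else 0) = 1 := by
    rw [Finset.sum_eq_single ((P n).symm x)]
    · simp
    · intro b _ hb
      rw [if_neg]
      intro h'
      exact hb (by rw [← h']; simp)
    · intro h'; exact absurd (mem_univ _) h'
  have h0 : ∑ d : Fin (N + 2), (if d.val = 0 ∧ P n ⟨d.val, by omega⟩ = x then (1 : ℚ) else 0) =
      if P n 0 = x then 1 else 0 := by
    rw [Finset.sum_eq_single (0 : Fin (N + 2))]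
    · simp
    · intro b _ hb
      rw [if_neg]
      rintro ⟨h', -⟩
      exact hb (Fin.ext h')
    · intro h'; exact absurd (mem_univ _) h'
  have h1 : ∑ d : Fin (N + 2), (if d.val = 0 then (1 : ℚ) else 0) = 1 := by
    rw [Finset.sum_eq_single (0 : Fin (N + 2))]
    · simp
    · intro b _ hb
      rw [if_neg]
      intro h'
      exact hb (Fin.ext h')
    · intro h'; exact absurd (mem_univ _) h'
  rw [h0, h1]
  rw [Fin.sum_univ_succ] at hv
  have h3 : ∑ d : Fin (N + 2), (if P n ⟨d.val + 1, by omega⟩ = x then (1 : ℚ) else 0) =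
      ∑ d : Fin (N + 2), if P n d.succ = x then (1 : ℚ) else 0 := rfl
  rw [h3]
  linarith

/-- The family of vectors. -/
noncomputable def fam : Idx P → Env P → ℚ
  | .inl ⟨d, x⟩ => cons P (d.val + 1) x.1
  | .inr (.inl x) => vis P x
  | .inr (.inr n) => path P n

lemma fam_indep (hP : IsFast P) (c : Idx P → ℚ) (hc : ∀ e, ∑ i, c i * fam P i e = 0) :
    ∀ i, c i = 0 := by
  -- split the sum
  have hsplit : ∀ e : Env P, (∑ v : Node P,
      c (.inl v) * cons P (v.1.val + 1) v.2.1 e) + (∑ x : Fin (N + 3), c (.inr (.inl x)) * vis P x e) +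
      ∑ n : Fin (N + 3), c (.inr (.inr n)) * path P n e = 0 := by
    intro e
    have := hc e
    rw [Fintype.sum_sum_type, Fintype.sum_sum_type] at this
    rw [add_assoc]
    exact this
  set p : Env P → ℚ := fun e => ∑ n : Fin (N + 3), c (.inr (.inr n)) * path P n e with hp
  -- the path part is orthogonal to the rest, hence zero
  have hpp : ∑ e : Env P, p e * p e = 0 := by
    have h1 : ∀ e : Env P, p e * p e = -(∑ v : Node P,
        c (.inl v) * (p e * cons P (v.1.val + 1) v.2.1 e)) -
        ∑ x : Fin (N + 3), c (.inr (.inl x)) * (p e * vis P x e) := by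
      intro e
      have h2 : p e = -(∑ v : Node P,
          c (.inl v) * cons P (v.1.val + 1) v.2.1 e) -
          ∑ x : Fin (N + 3), c (.inr (.inl x)) * vis P x e := by
        have := hsplit e
        simp only [hp]
        linarith
      conv_lhs => rw [show p e * p e = p e * (p e) from rfl]; arg 2; rw [h2]
      rw [mul_sub, mul_neg, Finset.mul_sum, Finset.mul_sum]
      congr 1
      · congr 1
        refine Finset.sum_congr rfl fun v _ => ?_
        ring
      · refine Finset.sum_congr rfl fun v _ => ?_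
        ring
    have hpc : ∀ (d : Fin N) (x : Fin (N + 3)), ∑ e : Env P, p e * cons P (d.val + 1) x e = 0 := by
      intro d x
      simp only [hp, Finset.sum_mul]
      rw [Finset.sum_comm]
      refine Finset.sum_eq_zero fun n _ => ?_
      have := path_cons P n d x
      calc ∑ e : Env P, c (.inr (.inr n)) * path P n e * cons P (d.val + 1) x e
          = c (.inr (.inr n)) * ∑ e : Env P, path P n e * cons P (d.val + 1) x e := by
            rw [Finset.mul_sum]; exact Finset.sum_congr rfl fun e _ => by ring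
        _ = 0 := by rw [this, mul_zero]
    have hpv : ∀ x : Fin (N + 3), ∑ e : Env P, p e * vis P x e = 0 := by
      intro x
      simp only [hp, Finset.sum_mul]
      rw [Finset.sum_comm]
      refine Finset.sum_eq_zero fun n _ => ?_
      have := path_vis P n x
      calc ∑ e : Env P, c (.inr (.inr n)) * path P n e * vis P x e
          = c (.inr (.inr n)) * ∑ e : Env P, path P n e * vis P x e := by
            rw [Finset.mul_sum]; exact Finset.sum_congr rfl fun e _ => by ring
        _ = 0 := by rw [this, mul_zero]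
    rw [Finset.sum_congr rfl fun e _ => h1 e, Finset.sum_sub_distrib, Finset.sum_neg_distrib,
      Finset.sum_comm, Finset.sum_comm (γ := Env P) (t := (univ : Finset (Fin (N + 3))))]
    rw [Finset.sum_eq_zero, Finset.sum_eq_zero]
    · simp
    · intro x _
      rw [← Finset.mul_sum, hpv, mul_zero]
    · intro v _
      rw [← Finset.mul_sum, hpc, mul_zero]
  have hp0 : ∀ e, p e = 0 := by
    intro e
    have h1 := (Finset.sum_eq_zero_iff_of_nonneg (fun e _ => mul_self_nonneg (p e))).1 hpp e
      (mem_univ e)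
    exact mul_self_eq_zero.1 h1
  -- last-day envelopes: into `n` only contract `n`
  have hlast : ∀ n : Fin (N + 3), P n ⟨N + 1 + 1, by omega⟩ = n := fun n => hP n _ rfl
  have hcn : ∀ n : Fin (N + 3), c (.inr (.inr n)) = 0 := by
    intro n
    have h1 := hp0 ⟨(N + 1, P n ⟨N + 1, by omega⟩, P n ⟨N + 1 + 1, by omega⟩),
      mem_env P n (N + 1) (by omega)⟩
    simp only [hp] at h1
    rw [Finset.sum_eq_single n] at h1
    · have hpath : path P n ⟨(N + 1, P n ⟨N + 1, by omega⟩, P n ⟨N + 1 + 1, by omega⟩),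
          mem_env P n (N + 1) (by omega)⟩ = 1 := by
        unfold path
        exact if_pos ⟨(by omega : N + 1 + 1 < N + 3), rfl, rfl⟩
      rw [hpath, mul_one] at h1
      exact h1
    · intro b _ hb
      unfold path
      simp only
      rw [if_neg, mul_zero]
      rintro ⟨_, -, h⟩
      rw [hlast, hlast] at h
      exact hb h
    · intro h; exact absurd (mem_univ _) h
  have hsplit' : ∀ e : Env P, (∑ v : Node P,
      c (.inl v) * cons P (v.1.val + 1) v.2.1 e) +
      (∑ x : Fin (N + 3), c (.inr (.inl x)) * vis P x e) = 0 := by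
    intro e
    have h1 := hsplit e
    have h2 := hp0 e
    simp only [hp] at h2
    rw [h2, add_zero] at h1
    exact h1
  have hcx : ∀ x : Fin (N + 3), c (.inr (.inl x)) = 0 := by
    intro x
    have h1 := hsplit' ⟨(N + 1, P x ⟨N + 1, by omega⟩, P x ⟨N + 1 + 1, by omega⟩),
      mem_env P x (N + 1) (by omega)⟩
    rw [Finset.sum_eq_zero, zero_add, Finset.sum_eq_single x] at h1
    · unfold vis at h1
      simp only [hlast, if_true, Nat.add_eq_zero_iff, one_ne_zero, and_false, false_and, if_false,
        add_zero, sub_zero, mul_one] at h1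
      exact h1
    · intro b _ hb
      unfold vis
      simp only [hlast, if_neg hb.symm, Nat.add_eq_zero_iff, one_ne_zero, and_false, false_and,
        if_false, add_zero, sub_zero, mul_zero]
    · intro h; exact absurd (mem_univ _) h
    · rintro ⟨d, y⟩ _
      unfold cons
      have hd := d.isLt
      simp only
      rw [if_neg, if_neg, sub_zero, mul_zero]
      · rintro ⟨h, -⟩; omega
      · rintro ⟨h, -⟩; omega
  have hsplit'' : ∀ e : Env P, (∑ v : Node P,
      c (.inl v) * cons P (v.1.val + 1) v.2.1 e) = 0 := by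
    intro e
    have h1 := hsplit' e
    rw [Finset.sum_eq_zero (s := (univ : Finset (Fin (N + 3)))), add_zero] at h1
    · exact h1
    · intro x _; rw [hcx, zero_mul]
  -- internal nodes, by induction on the day
  have hcd : ∀ (d : ℕ) (hd : d < N) (x : Fin (N + 3)) (hx : x ∈ G P ⟨d + 1, by omega⟩),
      c (.inl ⟨⟨d, hd⟩, ⟨x, hx⟩⟩) = 0 := by
    intro d
    induction d with
    | zero =>
      intro hd x hx
      obtain ⟨n, -, hn⟩ := mem_image.1 hx
      have h1 := hsplit'' ⟨(0, P n ⟨0, by omega⟩, P n ⟨0 + 1, by omega⟩), mem_env P n 0 (by omega)⟩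
      rw [Finset.sum_eq_single (⟨⟨0, hd⟩, ⟨x, hx⟩⟩ : Node P)] at h1
      · unfold cons at h1
        simp only [hn, and_self, if_true] at h1
        rw [if_neg (by rintro ⟨h, -⟩; omega), sub_zero, mul_one] at h1
        exact h1
      · rintro ⟨⟨d', hd'⟩, ⟨y, hy⟩⟩ _ hne
        unfold cons
        simp only [hn]
        rw [if_neg, if_neg, sub_zero, mul_zero]
        · rintro ⟨h, -⟩; omega
        · rintro ⟨h, h'⟩
          have h0 : d' = 0 := by omega
          subst h0
          subst h'
          exact hne rfl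
      · intro h; exact absurd (mem_univ _) h
    | succ d ih =>
      intro hd x hx
      obtain ⟨n, -, hn⟩ := mem_image.1 hx
      have h1 := hsplit'' ⟨(d + 1, P n ⟨d + 1, by omega⟩, P n ⟨d + 1 + 1, by omega⟩),
        mem_env P n (d + 1) (by omega)⟩
      rw [Finset.sum_eq_single (⟨⟨d + 1, hd⟩, ⟨x, hx⟩⟩ : Node P)] at h1
      · unfold cons at h1
        simp only [hn, and_self, if_true] at h1
        rw [if_neg (by rintro ⟨h, -⟩; omega), sub_zero, mul_one] at h1
        exact h1
      · rintro ⟨⟨d', hd'⟩, ⟨y, hy⟩⟩ _ hne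
        by_cases hdd : d' = d
        · subst hdd
          rw [ih hd' y hy, zero_mul]
        · unfold cons
          simp only [hn]
          rw [if_neg, if_neg, sub_zero, mul_zero]
          · rintro ⟨h, -⟩; omega
          · rintro ⟨h, h'⟩
            have h0 : d' = d + 1 := by omega
            subst h0
            subst h'
            exact hne rfl
      · intro h; exact absurd (mem_univ _) h
  rintro (⟨⟨d, hd⟩, ⟨x, hx⟩⟩ | x | n)
  · exact hcd d hd x hx
  · exact hcx x
  · exact hcn n

lemma lower (hP : IsFast P) : 4 * (N + 3) - 6 ≤ (envelopes P).card := by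
  have hli : LinearIndependent ℚ (fam P) := by
    rw [Fintype.linearIndependent_iff]
    intro g hg i
    refine fam_indep P hP g ?_ i
    intro e
    have := congrFun hg e
    simpa [Finset.sum_apply, Pi.smul_apply, smul_eq_mul] using this
  have h1 := hli.fintype_card_le_finrank
  rw [Module.finrank_fintype_fun_eq_card, Fintype.card_coe] at h1
  refine le_trans ?_ h1
  have h3 : Fintype.card (Idx P) = (∑ d : Fin N, (G P ⟨d.val + 1, by omega⟩).card) +
      ((N + 3) + (N + 3)) := by
    rw [Fintype.card_sum, Fintype.card_sum, Fintype.card_sigma, Fintype.card_fin]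
    congr 1
    refine Finset.sum_congr rfl fun d _ => ?_
    rw [Fintype.card_coe]
  rw [h3]
  have h2 : ∑ _d : Fin N, 2 ≤ ∑ d : Fin N, (G P ⟨d.val + 1, by omega⟩).card := by
    refine Finset.sum_le_sum fun d _ => ?_
    exact two_le_G P hP _ (by simp)
  rw [Finset.sum_const, Finset.card_univ, Fintype.card_fin, smul_eq_mul] at h2
  omega

end lower

/-! ### Upper bound -/

section upper

variable (N : ℕ)

/-- The route of contract `n`: `0, 1, …, n-1, n+1, …, N+1, n`. -/
def route (n d : Fin (N + 2)) : Fin (N + 2) :=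
  if d.val < n.val then d else if h : d.val + 1 < N + 2 then ⟨d.val + 1, h⟩ else n

lemma route_inj (n : Fin (N + 2)) : Function.Injective (route N n) := by
  intro d d' h
  have h' := congrArg Fin.val h
  unfold route at h'
  have hd := d.isLt
  have hd' := d'.isLt
  have hn := n.isLt
  apply Fin.ext
  split_ifs at h' <;> (try simp only at h') <;> omega

noncomputable def proto (n : Fin (N + 2)) : Equiv.Perm (Fin (N + 2)) :=
  Equiv.ofBijective (route N n) (Finite.injective_iff_bijective.1 (route_inj N n))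

lemma proto_apply (n d : Fin (N + 2)) : proto N n d = route N n d := rfl

lemma proto_fast : IsFast (proto N) := by
  intro n d hd
  rw [proto_apply]
  unfold route
  have hn := n.isLt
  rw [if_neg (by omega), dif_neg (by omega)]

lemma proto_card : (envelopes (proto N)).card ≤ 4 * (N + 2) - 6 := by
  classical
  set E1 : Finset (ℕ × Fin (N + 2) × Fin (N + 2)) :=
    (univ : Finset (Fin N)).image fun d => (d.val, ⟨d.val, by omega⟩, ⟨d.val + 1, by omega⟩)
  set E2 : Finset (ℕ × Fin (N + 2) × Fin (N + 2)) :=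
    (univ : Finset (Fin N)).image fun d => (d.val, ⟨d.val + 1, by omega⟩, ⟨d.val + 2, by omega⟩)
  set E3 : Finset (ℕ × Fin (N + 2) × Fin (N + 2)) :=
    (univ : Finset (Fin N)).image fun d => (d.val, ⟨d.val, by omega⟩, ⟨d.val + 2, by omega⟩)
  set E4 : Finset (ℕ × Fin (N + 2) × Fin (N + 2)) :=
    (univ : Finset (Fin (N + 2))).image fun n =>
      (N, proto N n ⟨N, by omega⟩, proto N n ⟨N + 1, by omega⟩)
  have hsub : envelopes (proto N) ⊆ E1 ∪ E2 ∪ E3 ∪ E4 := by
    intro e he
    unfold envelopes at he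
    rw [mem_image] at he
    obtain ⟨⟨n, a, b⟩, h1, rfl⟩ := he
    simp only [mem_filter, mem_univ, true_and] at h1
    have ha := a.isLt
    have hb := b.isLt
    have hn := n.isLt
    simp only [mem_union]
    by_cases haN : a.val < N
    · left
      have hb' : b = ⟨a.val + 1, by omega⟩ := Fin.ext h1.symm
      by_cases h2 : a.val + 1 < n.val
      · left; left
        refine mem_image.2 ⟨⟨a.val, haN⟩, mem_univ _, ?_⟩
        simp only [proto_apply, route, Prod.mk.injEq, true_and]
        rw [if_pos (by omega), if_pos (by omega)]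
        exact ⟨rfl, hb'.symm⟩
      · by_cases h3 : a.val + 1 = n.val
        · right
          refine mem_image.2 ⟨⟨a.val, haN⟩, mem_univ _, ?_⟩
          simp only [proto_apply, route, Prod.mk.injEq, true_and]
          rw [if_pos (by omega), if_neg (by omega), dif_pos (by omega)]
          refine ⟨rfl, Fin.ext ?_⟩
          simp only
          omega
        · left; right
          refine mem_image.2 ⟨⟨a.val, haN⟩, mem_univ _, ?_⟩
          simp only [proto_apply, route, Prod.mk.injEq, true_and]
          rw [if_neg (by omega), dif_pos (by omega), if_neg (by omega), dif_pos (by omega)]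
          refine ⟨rfl, Fin.ext ?_⟩
          simp only
          omega
    · right
      refine mem_image.2 ⟨n, mem_univ _, ?_⟩
      have h5 : a = ⟨N, by omega⟩ := Fin.ext (by simp only; omega)
      have h6 : b = ⟨N + 1, by omega⟩ := Fin.ext (by simp only; omega)
      have h7 : a.val = N := by omega
      rw [← h5, ← h6, h7]
  have h1 : E1.card ≤ N := by
    refine card_image_le.trans ?_; simp
  have h2 : E2.card ≤ N := by
    refine card_image_le.trans ?_; simp
  have h3 : E3.card ≤ N := by
    refine card_image_le.trans ?_; simp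
  have h4 : E4.card ≤ N + 2 := by
    refine card_image_le.trans ?_; simp
  have h5 := card_le_card hsub
  have h6 := card_union_le (E1 ∪ E2 ∪ E3) E4
  have h7 := card_union_le (E1 ∪ E2) E3
  have h8 := card_union_le E1 E2
  omega

end upper

lemma lower_two : ∀ P : Fin 2 → Equiv.Perm (Fin 2), IsFast P → 2 ≤ (envelopes P).card := by
  unfold IsFast
  decide +kernel

/-- **Theorem.** `CFP(N) = 4N - 6` for every `N ≥ 2`. -/
theorem result (N : ℕ) (hN : 2 ≤ N) : CFP N = 4 * N - 6 := by
  obtain ⟨M, rfl⟩ : ∃ M, N = M + 2 := ⟨N - 2, by omega⟩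
  have hlow : ∀ P : Fin (M + 2) → Equiv.Perm (Fin (M + 2)), IsFast P →
      4 * (M + 2) - 6 ≤ (envelopes P).card := by
    rcases Nat.eq_zero_or_pos M with rfl | hM
    · exact lower_two
    · obtain ⟨K, rfl⟩ : ∃ K, M = K + 1 := ⟨M - 1, by omega⟩
      exact fun P hP => lower P hP
  unfold CFP
  refine le_antisymm ?_ ?_
  · have hmem : (envelopes (proto M)).card ∈ {c | ∃ P : Fin (M + 2) → Equiv.Perm (Fin (M + 2)),
        IsFast P ∧ (envelopes P).card = c} := ⟨proto M, proto_fast M, rfl⟩
    exact (Nat.sInf_le hmem).trans (proto_card M)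
  · have hne : {c | ∃ P : Fin (M + 2) → Equiv.Perm (Fin (M + 2)), IsFast P ∧
        (envelopes P).card = c}.Nonempty := ⟨_, proto M, proto_fast M, rfl⟩
    refine le_csInf hne ?_
    rintro c ⟨P, hP, rfl⟩
    exact hlow P hP

end Pool.Agent.Results.MP_6fb3b3_lc.ExactCost
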